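import Pool.Agent.H.MP_1a0ba0_co.Tab

set_option autoImplicit false

namespace Pool.Agent.H.MP_1a0ba0_co

theorem lp3 (a : Fin 3 → Fin 3 → ℝ) (v : Fin 3 → ℝ) (S : ℝ)
    (h : ∀ k s t, ineq (nT 3 k) (xt 3 k s t) a v)
    (hs : ∀ c d, a c d + a d c ≤ S ∧ -S ≤ a c d + a d c) : concl a v S := by
  have h0 := ineq_of (h 0 true true) (-60) 55 (-120) 9306 16231 18485 (by decide +kernel)
  have h1 := ineq_of (h 0 true false) (-60) 55 (-120) 9304 15967 18365 (by decide +kernel)
  have h2 := ineq_of (h 0 false true) (-60) 55 (-120) 9042 16183 18595 (by decide +kernel)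
  have h3 := ineq_of (h 0 false false) (-60) 55 (-120) 9040 15919 18475 (by decide +kernel)
  have h4 := ineq_of (h 1 true true) 120 60 (-55) 18485 9306 16231 (by decide +kernel)
  have h5 := ineq_of (h 1 true false) 120 60 (-55) 18365 9304 15967 (by decide +kernel)
  have h6 := ineq_of (h 1 false true) 120 60 (-55) 18595 9042 16183 (by decide +kernel)
  have h7 := ineq_of (h 1 false false) 120 60 (-55) 18475 9040 15919 (by decide +kernel)
  have h8 := ineq_of (h 2 true true) (-80) (-60) 105 12791 7215 18944 (by decide +kernel)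
  have h9 := ineq_of (h 2 true false) (-80) (-60) 105 12671 7473 19000 (by decide +kernel)
  have h10 := ineq_of (h 2 false true) (-80) (-60) 105 13001 7271 19136 (by decide +kernel)
  have h11 := ineq_of (h 2 false false) (-80) (-60) 105 12881 7529 19192 (by decide +kernel)
  have h12 := ineq_of (h 3 true true) (-80) (-48) (-111) 17754 (-1391) 16702 (by decide +kernel)
  have h13 := ineq_of (h 3 true false) (-80) (-48) (-111) 17514 (-1361) 16862 (by decide +kernel)
  have h14 := ineq_of (h 3 false true) (-80) (-48) (-111) 17784 (-1663) 16798 (by decide +kernel)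
  have h15 := ineq_of (h 3 false false) (-80) (-48) (-111) 17544 (-1633) 16958 (by decide +kernel)
  push_cast at h0 h1 h2 h3 h4 h5 h6 h7 h8 h9 h10 h11 h12 h13 h14 h15
  obtain ⟨p00, q00⟩ := hs 0 0
  obtain ⟨p01, q01⟩ := hs 0 1
  obtain ⟨p02, q02⟩ := hs 0 2
  obtain ⟨p11, q11⟩ := hs 1 1
  obtain ⟨p12, q12⟩ := hs 1 2
  obtain ⟨p22, q22⟩ := hs 2 2
  refine ⟨?_, ?_, ?_, ?_, ?_, ?_, ?_, ?_, ?_, ?_, ?_, ?_⟩ <;> linarith

theorem lp4 (a : Fin 3 → Fin 3 → ℝ) (v : Fin 3 → ℝ) (S : ℝ)
    (h : ∀ k s t, ineq (nT 4 k) (xt 4 k s t) a v)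
    (hs : ∀ c d, a c d + a d c ≤ S ∧ -S ≤ a c d + a d c) : concl a v S := by
  have h0 := ineq_of (h 0 true true) 120 (-55) 60 (-18485) (-16231) (-9306) (by decide +kernel)
  have h1 := ineq_of (h 0 true false) 120 (-55) 60 (-18365) (-15967) (-9304) (by decide +kernel)
  have h2 := ineq_of (h 0 false true) 120 (-55) 60 (-18595) (-16183) (-9042) (by decide +kernel)
  have h3 := ineq_of (h 0 false false) 120 (-55) 60 (-18475) (-15919) (-9040) (by decide +kernel)
  have h4 := ineq_of (h 1 true true) 55 (-60) (-120) (-16231) (-9306) (-18485) (by decide +kernel)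
  have h5 := ineq_of (h 1 true false) 55 (-60) (-120) (-15967) (-9304) (-18365) (by decide +kernel)
  have h6 := ineq_of (h 1 false true) 55 (-60) (-120) (-16183) (-9042) (-18595) (by decide +kernel)
  have h7 := ineq_of (h 1 false false) 55 (-60) (-120) (-15919) (-9040) (-18475) (by decide +kernel)
  have h8 := ineq_of (h 2 true true) (-105) 60 80 (-18944) (-7215) (-12791) (by decide +kernel)
  have h9 := ineq_of (h 2 true false) (-105) 60 80 (-19000) (-7473) (-12671) (by decide +kernel)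
  have h10 := ineq_of (h 2 false true) (-105) 60 80 (-19136) (-7271) (-13001) (by decide +kernel)
  have h11 := ineq_of (h 2 false false) (-105) 60 80 (-19192) (-7529) (-12881) (by decide +kernel)
  have h12 := ineq_of (h 3 true true) 111 48 80 (-16702) 1391 (-17754) (by decide +kernel)
  have h13 := ineq_of (h 3 true false) 111 48 80 (-16862) 1361 (-17514) (by decide +kernel)
  have h14 := ineq_of (h 3 false true) 111 48 80 (-16798) 1663 (-17784) (by decide +kernel)
  have h15 := ineq_of (h 3 false false) 111 48 80 (-16958) 1633 (-17544) (by decide +kernel)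
  push_cast at h0 h1 h2 h3 h4 h5 h6 h7 h8 h9 h10 h11 h12 h13 h14 h15
  obtain ⟨p00, q00⟩ := hs 0 0
  obtain ⟨p01, q01⟩ := hs 0 1
  obtain ⟨p02, q02⟩ := hs 0 2
  obtain ⟨p11, q11⟩ := hs 1 1
  obtain ⟨p12, q12⟩ := hs 1 2
  obtain ⟨p22, q22⟩ := hs 2 2
  refine ⟨?_, ?_, ?_, ?_, ?_, ?_, ?_, ?_, ?_, ?_, ?_, ?_⟩ <;> linarith

theorem lp5 (a : Fin 3 → Fin 3 → ℝ) (v : Fin 3 → ℝ) (S : ℝ)
    (h : ∀ k s t, ineq (nT 5 k) (xt 5 k s t) a v)
    (hs : ∀ c d, a c d + a d c ≤ S ∧ -S ≤ a c d + a d c) : concl a v S := by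
  have h0 := ineq_of (h 0 true true) (-55) 60 120 (-16231) (-9306) (-18485) (by decide +kernel)
  have h1 := ineq_of (h 0 true false) (-55) 60 120 (-15967) (-9304) (-18365) (by decide +kernel)
  have h2 := ineq_of (h 0 false true) (-55) 60 120 (-16183) (-9042) (-18595) (by decide +kernel)
  have h3 := ineq_of (h 0 false false) (-55) 60 120 (-15919) (-9040) (-18475) (by decide +kernel)
  have h4 := ineq_of (h 1 true true) (-60) (-120) 55 (-9306) (-18485) (-16231) (by decide +kernel)
  have h5 := ineq_of (h 1 true false) (-60) (-120) 55 (-9304) (-18365) (-15967) (by decide +kernel)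
  have h6 := ineq_of (h 1 false true) (-60) (-120) 55 (-9042) (-18595) (-16183) (by decide +kernel)
  have h7 := ineq_of (h 1 false false) (-60) (-120) 55 (-9040) (-18475) (-15919) (by decide +kernel)
  have h8 := ineq_of (h 2 true true) 60 80 (-105) (-7215) (-12791) (-18944) (by decide +kernel)
  have h9 := ineq_of (h 2 true false) 60 80 (-105) (-7473) (-12671) (-19000) (by decide +kernel)
  have h10 := ineq_of (h 2 false true) 60 80 (-105) (-7271) (-13001) (-19136) (by decide +kernel)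
  have h11 := ineq_of (h 2 false false) 60 80 (-105) (-7529) (-12881) (-19192) (by decide +kernel)
  have h12 := ineq_of (h 3 true true) 48 80 111 1391 (-17754) (-16702) (by decide +kernel)
  have h13 := ineq_of (h 3 true false) 48 80 111 1361 (-17514) (-16862) (by decide +kernel)
  have h14 := ineq_of (h 3 false true) 48 80 111 1663 (-17784) (-16798) (by decide +kernel)
  have h15 := ineq_of (h 3 false false) 48 80 111 1633 (-17544) (-16958) (by decide +kernel)
  push_cast at h0 h1 h2 h3 h4 h5 h6 h7 h8 h9 h10 h11 h12 h13 h14 h15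
  obtain ⟨p00, q00⟩ := hs 0 0
  obtain ⟨p01, q01⟩ := hs 0 1
  obtain ⟨p02, q02⟩ := hs 0 2
  obtain ⟨p11, q11⟩ := hs 1 1
  obtain ⟨p12, q12⟩ := hs 1 2
  obtain ⟨p22, q22⟩ := hs 2 2
  refine ⟨?_, ?_, ?_, ?_, ?_, ?_, ?_, ?_, ?_, ?_, ?_, ?_⟩ <;> linarith

end Pool.Agent.H.MP_1a0ba0_co
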