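import Pool.Agent.H.MP_1a0ba0_co.Tab

set_option autoImplicit false

namespace Pool.Agent.H.MP_1a0ba0_co

theorem lp6 (a : Fin 3 → Fin 3 → ℝ) (v : Fin 3 → ℝ) (S : ℝ)
    (h : ∀ k s t, ineq (nT 6 k) (xt 6 k s t) a v)
    (hs : ∀ c d, a c d + a d c ≤ S ∧ -S ≤ a c d + a d c) : concl a v S := by
  have h0 := ineq_of (h 0 true true) (-105) 80 60 18944 12791 7215 (by decide +kernel)
  have h1 := ineq_of (h 0 true false) (-105) 80 60 19000 12671 7473 (by decide +kernel)
  have h2 := ineq_of (h 0 false true) (-105) 80 60 19136 13001 7271 (by decide +kernel)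
  have h3 := ineq_of (h 0 false false) (-105) 80 60 19192 12881 7529 (by decide +kernel)
  have h4 := ineq_of (h 1 true true) (-80) 105 (-60) (-12791) (-18944) (-7215) (by decide +kernel)
  have h5 := ineq_of (h 1 true false) (-80) 105 (-60) (-12671) (-19000) (-7473) (by decide +kernel)
  have h6 := ineq_of (h 1 false true) (-80) 105 (-60) (-13001) (-19136) (-7271) (by decide +kernel)
  have h7 := ineq_of (h 1 false false) (-80) 105 (-60) (-12881) (-19192) (-7529) (by decide +kernel)
  have h8 := ineq_of (h 2 true true) 80 48 111 17754 (-1391) 16702 (by decide +kernel)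
  have h9 := ineq_of (h 2 true false) 80 48 111 17514 (-1361) 16862 (by decide +kernel)
  have h10 := ineq_of (h 2 false true) 80 48 111 17784 (-1663) 16798 (by decide +kernel)
  have h11 := ineq_of (h 2 false false) 80 48 111 17544 (-1633) 16958 (by decide +kernel)
  have h12 := ineq_of (h 3 true true) (-48) (-80) (-111) 1391 (-17754) (-16702) (by decide +kernel)
  have h13 := ineq_of (h 3 true false) (-48) (-80) (-111) 1361 (-17514) (-16862) (by decide +kernel)
  have h14 := ineq_of (h 3 false true) (-48) (-80) (-111) 1663 (-17784) (-16798) (by decide +kernel)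
  have h15 := ineq_of (h 3 false false) (-48) (-80) (-111) 1633 (-17544) (-16958) (by decide +kernel)
  push_cast at h0 h1 h2 h3 h4 h5 h6 h7 h8 h9 h10 h11 h12 h13 h14 h15
  obtain ⟨p00, q00⟩ := hs 0 0
  obtain ⟨p01, q01⟩ := hs 0 1
  obtain ⟨p02, q02⟩ := hs 0 2
  obtain ⟨p11, q11⟩ := hs 1 1
  obtain ⟨p12, q12⟩ := hs 1 2
  obtain ⟨p22, q22⟩ := hs 2 2
  refine ⟨?_, ?_, ?_, ?_, ?_, ?_, ?_, ?_, ?_, ?_, ?_, ?_⟩ <;> linarith

theorem lp7 (a : Fin 3 → Fin 3 → ℝ) (v : Fin 3 → ℝ) (S : ℝ)
    (h : ∀ k s t, ineq (nT 7 k) (xt 7 k s t) a v)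
    (hs : ∀ c d, a c d + a d c ≤ S ∧ -S ≤ a c d + a d c) : concl a v S := by
  have h0 := ineq_of (h 0 true true) 60 (-105) 80 7215 18944 12791 (by decide +kernel)
  have h1 := ineq_of (h 0 true false) 60 (-105) 80 7473 19000 12671 (by decide +kernel)
  have h2 := ineq_of (h 0 false true) 60 (-105) 80 7271 19136 13001 (by decide +kernel)
  have h3 := ineq_of (h 0 false false) 60 (-105) 80 7529 19192 12881 (by decide +kernel)
  have h4 := ineq_of (h 1 true true) (-60) (-80) 105 (-7215) (-12791) (-18944) (by decide +kernel)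
  have h5 := ineq_of (h 1 true false) (-60) (-80) 105 (-7473) (-12671) (-19000) (by decide +kernel)
  have h6 := ineq_of (h 1 false true) (-60) (-80) 105 (-7271) (-13001) (-19136) (by decide +kernel)
  have h7 := ineq_of (h 1 false false) (-60) (-80) 105 (-7529) (-12881) (-19192) (by decide +kernel)
  have h8 := ineq_of (h 2 true true) 111 80 48 16702 17754 (-1391) (by decide +kernel)
  have h9 := ineq_of (h 2 true false) 111 80 48 16862 17514 (-1361) (by decide +kernel)
  have h10 := ineq_of (h 2 false true) 111 80 48 16798 17784 (-1663) (by decide +kernel)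
  have h11 := ineq_of (h 2 false false) 111 80 48 16958 17544 (-1633) (by decide +kernel)
  have h12 := ineq_of (h 3 true true) (-111) (-48) (-80) (-16702) 1391 (-17754) (by decide +kernel)
  have h13 := ineq_of (h 3 true false) (-111) (-48) (-80) (-16862) 1361 (-17514) (by decide +kernel)
  have h14 := ineq_of (h 3 false true) (-111) (-48) (-80) (-16798) 1663 (-17784) (by decide +kernel)
  have h15 := ineq_of (h 3 false false) (-111) (-48) (-80) (-16958) 1633 (-17544) (by decide +kernel)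
  push_cast at h0 h1 h2 h3 h4 h5 h6 h7 h8 h9 h10 h11 h12 h13 h14 h15
  obtain ⟨p00, q00⟩ := hs 0 0
  obtain ⟨p01, q01⟩ := hs 0 1
  obtain ⟨p02, q02⟩ := hs 0 2
  obtain ⟨p11, q11⟩ := hs 1 1
  obtain ⟨p12, q12⟩ := hs 1 2
  obtain ⟨p22, q22⟩ := hs 2 2
  refine ⟨?_, ?_, ?_, ?_, ?_, ?_, ?_, ?_, ?_, ?_, ?_, ?_⟩ <;> linarith

theorem lp8 (a : Fin 3 → Fin 3 → ℝ) (v : Fin 3 → ℝ) (S : ℝ)
    (h : ∀ k s t, ineq (nT 8 k) (xt 8 k s t) a v)
    (hs : ∀ c d, a c d + a d c ≤ S ∧ -S ≤ a c d + a d c) : concl a v S := by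
  have h0 := ineq_of (h 0 true true) 80 60 (-105) 12791 7215 18944 (by decide +kernel)
  have h1 := ineq_of (h 0 true false) 80 60 (-105) 12671 7473 19000 (by decide +kernel)
  have h2 := ineq_of (h 0 false true) 80 60 (-105) 13001 7271 19136 (by decide +kernel)
  have h3 := ineq_of (h 0 false false) 80 60 (-105) 12881 7529 19192 (by decide +kernel)
  have h4 := ineq_of (h 1 true true) 105 (-60) (-80) (-18944) (-7215) (-12791) (by decide +kernel)
  have h5 := ineq_of (h 1 true false) 105 (-60) (-80) (-19000) (-7473) (-12671) (by decide +kernel)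
  have h6 := ineq_of (h 1 false true) 105 (-60) (-80) (-19136) (-7271) (-13001) (by decide +kernel)
  have h7 := ineq_of (h 1 false false) 105 (-60) (-80) (-19192) (-7529) (-12881) (by decide +kernel)
  have h8 := ineq_of (h 2 true true) 48 111 80 (-1391) 16702 17754 (by decide +kernel)
  have h9 := ineq_of (h 2 true false) 48 111 80 (-1361) 16862 17514 (by decide +kernel)
  have h10 := ineq_of (h 2 false true) 48 111 80 (-1663) 16798 17784 (by decide +kernel)
  have h11 := ineq_of (h 2 false false) 48 111 80 (-1633) 16958 17544 (by decide +kernel)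
  have h12 := ineq_of (h 3 true true) (-80) (-111) (-48) (-17754) (-16702) 1391 (by decide +kernel)
  have h13 := ineq_of (h 3 true false) (-80) (-111) (-48) (-17514) (-16862) 1361 (by decide +kernel)
  have h14 := ineq_of (h 3 false true) (-80) (-111) (-48) (-17784) (-16798) 1663 (by decide +kernel)
  have h15 := ineq_of (h 3 false false) (-80) (-111) (-48) (-17544) (-16958) 1633 (by decide +kernel)
  push_cast at h0 h1 h2 h3 h4 h5 h6 h7 h8 h9 h10 h11 h12 h13 h14 h15
  obtain ⟨p00, q00⟩ := hs 0 0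
  obtain ⟨p01, q01⟩ := hs 0 1
  obtain ⟨p02, q02⟩ := hs 0 2
  obtain ⟨p11, q11⟩ := hs 1 1
  obtain ⟨p12, q12⟩ := hs 1 2
  obtain ⟨p22, q22⟩ := hs 2 2
  refine ⟨?_, ?_, ?_, ?_, ?_, ?_, ?_, ?_, ?_, ?_, ?_, ?_⟩ <;> linarith

end Pool.Agent.H.MP_1a0ba0_co
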