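import Pool.Agent.H.MP_1a0ba0_co.LpA
import Pool.Agent.H.MP_1a0ba0_co.LpB
import Pool.Agent.H.MP_1a0ba0_co.LpC

set_option autoImplicit false

namespace Pool.Agent.H.MP_1a0ba0_co

theorem lp (i : Fin 9) (a : Fin 3 → Fin 3 → ℝ) (v : Fin 3 → ℝ) (S : ℝ)
    (h : ∀ k s t, ineq (nT i k) (xt i k s t) a v)
    (hs : ∀ c d, a c d + a d c ≤ S ∧ -S ≤ a c d + a d c) : concl a v S := by
  match i, h with
  | 0, h => exact lp0 a v S h hs
  | 1, h => exact lp1 a v S h hs
  | 2, h => exact lp2 a v S h hs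
  | 3, h => exact lp3 a v S h hs
  | 4, h => exact lp4 a v S h hs
  | 5, h => exact lp5 a v S h hs
  | 6, h => exact lp6 a v S h hs
  | 7, h => exact lp7 a v S h hs
  | 8, h => exact lp8 a v S h hs

end Pool.Agent.H.MP_1a0ba0_co
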