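import Pool.Agent.H.MP_1a0ba0_co.Geo
import Pool.Agent.H.MP_1a0ba0_co.Lp

set_option autoImplicit false
open Set Metric
open scoped Pointwise RealInnerProductSpace

namespace Pool.Agent.H.MP_1a0ba0_co

noncomputable def vec (p : Fin 3 → ℤ) : E := WithLp.toLp 2 (fun d => (p d : ℝ))

@[simp] theorem vec_apply (p : Fin 3 → ℤ) (d : Fin 3) : vec p d = (p d : ℝ) := rfl

theorem inner_vec (p : Fin 3 → ℤ) (x : E) :
    ⟪vec p, x⟫ = p 0 * x 0 + p 1 * x 1 + p 2 * x 2 := by
  simp only [PiLp.inner_apply, Fin.sum_univ_three, vec_apply]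
  simp
  ring

theorem norm_vec {p : Fin 3 → ℤ} {N : ℤ} (h0 : 0 ≤ N) (h : p 0 ^ 2 + p 1 ^ 2 + p 2 ^ 2 ≤ N ^ 2) :
    ‖vec p‖ ≤ N := by
  have h1 : ‖vec p‖ ^ 2 = p 0 ^ 2 + p 1 ^ 2 + p 2 ^ 2 := by
    rw [← real_inner_self_eq_norm_sq, inner_vec]; simp only [vec_apply]; ring
  have h2 : ((p 0 : ℝ)) ^ 2 + p 1 ^ 2 + p 2 ^ 2 ≤ (N : ℝ) ^ 2 := by exact_mod_cast h
  have h3 : (0 : ℝ) ≤ N := by exact_mod_cast h0
  exact (pow_le_pow_iff_left₀ (norm_nonneg _) h3 two_ne_zero).1 (by linarith)

def verts (i : Fin 9) : Set E := range fun p : Fin 4 × Bool × Bool => vec (vt i p.1 p.2.1 p.2.2)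

def core (i : Fin 9) : Set E := convexHull ℝ (verts i)

def body (i : Fin 9) : Set E := rd (core i)

theorem core_compact (i : Fin 9) : IsCompact (core i) :=
  (finite_range _).isCompact_convexHull ℝ

theorem body_compact (i : Fin 9) : IsCompact (body i) := rd_compact (core_compact i)

theorem body_convex (i : Fin 9) : Convex ℝ (body i) := rd_convex (convex_convexHull _ _)

theorem vt_mem (i : Fin 9) (k : Fin 4) (s t : Bool) : vec (vt i k s t) ∈ core i :=
  subset_convexHull _ _ ⟨(k, s, t), rfl⟩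

theorem body_int (i : Fin 9) : (interior (body i)).Nonempty :=
  ⟨_, ball_sub (vt_mem i 0 true true) (mem_ball_self (by norm_num))⟩

theorem body_smooth (i : Fin 9) : ∀ x ∈ frontier (body i), ∀ u v : E,
    u ≠ 0 → v ≠ 0 → (∀ y ∈ body i, ⟪u, y - x⟫ ≤ 0) → (∀ y ∈ body i, ⟪v, y - x⟫ ≤ 0) →
    ∃ c : ℝ, 0 < c ∧ v = c • u := smooth (core_compact i)

theorem body_disj (i j : Fin 9) (h : i ≠ j) :
    Disjoint (interior (body i)) (interior (body j)) := by
  obtain ⟨a1, a2, a3⟩ := sep0 i j h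
  refine sep (f := vec fun d => sT i j d.val) (N := sT i j 3) (c := sT i j 4) ?_
    (norm_vec a1 a2) ?_ ?_
  · intro h0
    have e0 : (sT i j 0 : ℝ) = 0 := congrArg (fun y : E => y 0) h0
    have e1 : (sT i j 1 : ℝ) = 0 := congrArg (fun y : E => y 1) h0
    have e2 : (sT i j 2 : ℝ) = 0 := congrArg (fun y : E => y 2) h0
    norm_cast at e0 e1 e2
    rw [e0, e1, e2] at a3
    norm_num at a3
  · rintro _ ⟨⟨k, s, t⟩, rfl⟩
    rw [inner_vec]
    simp only [vec_apply]
    exact_mod_cast (sep1 i j h k s t).1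
  · rintro _ ⟨⟨k, s, t⟩, rfl⟩
    rw [inner_vec]
    simp only [vec_apply]
    exact_mod_cast (sep1 i j h k s t).2

theorem patch (i : Fin 9) (k : Fin 4) (p q : ℝ) (hp : |p| ≤ 2) (hq : |q| ≤ 2) :
    vec (cT i k) - vec (nT i k) + p • vec (uT i k) + q • vec (wT i k) ∈ core i := by
  have h := sq (K := core i) (convex_convexHull _ _) (c := vec (cT i k) - vec (nT i k))
    (u := (2:ℝ) • vec (uT i k)) (w := (2:ℝ) • vec (wT i k))
    (by have := vt_mem i k true true
        have e : vec (vt i k true true) = vec (cT i k) - vec (nT i k) + (2:ℝ) • vec (uT i k)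
          + (2:ℝ) • vec (wT i k) := by ext d; simp [vt, sg]
        rwa [e] at this)
    (by have := vt_mem i k true false
        have e : vec (vt i k true false) = vec (cT i k) - vec (nT i k) + (2:ℝ) • vec (uT i k)
          - (2:ℝ) • vec (wT i k) := by ext d; simp [vt, sg]; ring
        rwa [e] at this)
    (by have := vt_mem i k false true
        have e : vec (vt i k false true) = vec (cT i k) - vec (nT i k) - (2:ℝ) • vec (uT i k)
          + (2:ℝ) • vec (wT i k) := by ext d; simp [vt, sg]; ring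
        rwa [e] at this)
    (by have := vt_mem i k false false
        have e : vec (vt i k false false) = vec (cT i k) - vec (nT i k) - (2:ℝ) • vec (uT i k)
          - (2:ℝ) • vec (wT i k) := by ext d; simp [vt, sg]; ring
        rwa [e] at this)
    (p := p / 2) (q := q / 2) (by rw [abs_div, abs_two]; linarith)
    (by rw [abs_div, abs_two]; linarith)
  have e : vec (cT i k) - vec (nT i k) + (p / 2) • (2:ℝ) • vec (uT i k)
      + (q / 2) • (2:ℝ) • vec (wT i k)
      = vec (cT i k) - vec (nT i k) + p • vec (uT i k) + q • vec (wT i k) := by module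
  rwa [e] at h

theorem patch' (i : Fin 9) (k : Fin 4) (p q : ℝ) (hp : |p| ≤ 2) (hq : |q| ≤ 2) :
    vec (cT i k) + vec (nT i k) + p • vec (uT i k) + q • vec (wT i k) ∈ core (nb i k) := by
  have h := patch (nb i k) (kk i k) p q hp hq
  have e : vec (cT (nb i k) (kk i k)) - vec (nT (nb i k) (kk i k)) + p • vec (uT (nb i k) (kk i k))
      + q • vec (wT (nb i k) (kk i k))
      = vec (cT i k) + vec (nT i k) + p • vec (uT i k) + q • vec (wT i k) := by
    ext d
    obtain ⟨a, b, c, e⟩ := nb_spec i k d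
    simp [a, b, c, e]
  rwa [e] at h

theorem frame' (i : Fin 9) (k : Fin 4) (y : E) :
    y = (⟪vec (nT i k), y⟫ / 21025) • vec (nT i k) + (⟪vec (uT i k), y⟫ / 21025) • vec (uT i k)
      + (⟪vec (wT i k), y⟫ / 21025) • vec (wT i k) := by
  ext d
  have f : ∀ e, (nT i k d : ℝ) * nT i k e + uT i k d * uT i k e + wT i k d * wT i k e
      = if d = e then 21025 else 0 := by
    intro e
    have := frame i k d e
    split_ifs at this ⊢ <;> exact_mod_cast this
  have f0 := f 0
  have f1 := f 1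
  have f2 := f 2
  simp only [inner_vec, PiLp.add_apply, PiLp.smul_apply, vec_apply, smul_eq_mul]
  fin_cases d <;> simp at f0 f1 f2 ⊢ <;>
    linear_combination (-(y 0) / 21025) * f0 - (y 1 / 21025) * f1 - (y 2 / 21025) * f2

theorem abs_sg (b : Bool) : |(sg b : ℝ)| ≤ 1 := by cases b <;> simp [sg]

theorem rigid (i : Fin 9) {g : E → E} (hg : Isometry g)
    (hd : ∀ j, j ≠ i → Disjoint (interior (g '' body i)) (interior (body j)))
    (h1 : ∀ k s t, ‖g (vec (xt i k s t)) - vec (xt i k s t)‖ < 145)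
    (h2 : ∀ c d, |mat g c d| < 1 / 4000) : ∀ x, g x = x := by
  obtain ⟨ho, hx, hm⟩ := iso_struct hg
  have hi : ∀ k s t, ineq (nT i k) (xt i k s t) (mat g) (fun c => g 0 c) := by
    intro k s t
    obtain ⟨n1, n2, n3⟩ := norms i k
    have := contact (A := core i) (B := core (nb i k)) (convex_convexHull _ _) (frame' i k)
      (by exact_mod_cast norm_vec (by norm_num) n1) (by exact_mod_cast norm_vec (by norm_num) n2)
      (by exact_mod_cast norm_vec (by norm_num) n3) (patch i k) (patch' i k) hg.continuous ho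
      (hd _ (nb_ne i k)) (abs_sg s) (abs_sg t) (x := vec (xt i k s t))
      (by ext d; simp [xt]) (h1 k s t)
    rw [inner_vec, hx, hx, hx] at this
    exact this
  have hs := symb hm
  have hS : 0 ≤ ∑ c, ∑ d, mat g c d ^ 2 := by positivity
  obtain ⟨c1, c2, c3, c4, c5, c6, v1, v2, v3, v4, v5, v6⟩ := lp i _ _ _ hi hs
  have hb : ∀ c d, |mat g c d| ≤ 401 * ∑ c, ∑ d, mat g c d ^ 2 := by
    intro c d
    have := hs c d
    rw [abs_le]
    fin_cases c <;> fin_cases d <;> simp only [Fin.zero_eta, Fin.mk_one, Fin.reduceFinMk] at this ⊢ <;>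
      constructor <;> linarith [this.1, this.2]
  have h0 := small h2 hb
  rw [h0] at hb v1 v2 v3 v4 v5 v6
  have hz : ∀ c d, mat g c d = 0 := fun c d => abs_nonpos_iff.1 (by simpa using hb c d)
  intro x
  rw [← sub_eq_zero]
  ext c
  rw [hx, hz, hz, hz]
  fin_cases c <;> simp at v1 v2 v3 v4 v5 v6 ⊢ <;> linarith

end Pool.Agent.H.MP_1a0ba0_co
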