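import Mathlib

set_option autoImplicit false
open Set Metric
open scoped Pointwise RealInnerProductSpace

namespace Pool.Agent.H.MP_1a0ba0_co

abbrev E := EuclideanSpace ℝ (Fin 3)

/-- rounding of a set -/
def rd (K : Set E) : Set E := K + closedBall (0 : E) 145

theorem mem_rd {K : Set E} {x : E} : x ∈ rd K ↔ ∃ k ∈ K, ‖x - k‖ ≤ 145 := by
  constructor
  · rintro ⟨k, hk, z, hz, rfl⟩
    refine ⟨k, hk, ?_⟩
    simpa using hz
  · rintro ⟨k, hk, h⟩
    exact ⟨k, hk, x - k, by simpa using h, by simp⟩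

theorem ball_sub {K : Set E} {k : E} (hk : k ∈ K) : ball k 145 ⊆ interior (rd K) := by
  refine interior_maximal ?_ isOpen_ball
  intro y hy
  rw [mem_ball, dist_eq_norm] at hy
  exact mem_rd.2 ⟨k, hk, hy.le⟩

theorem rd_compact {K : Set E} (h : IsCompact K) : IsCompact (rd K) :=
  h.add (isCompact_closedBall _ _)

theorem rd_convex {K : Set E} (h : Convex ℝ K) : Convex ℝ (rd K) :=
  h.add (convex_closedBall _ _)

theorem supp_dir {K : Set E} {x k u : E} (hk : k ∈ K) (hx : ‖x - k‖ ≤ 145) (hu : u ≠ 0)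
    (h : ∀ y ∈ rd K, ⟪u, y - x⟫ ≤ 0) : u = (‖u‖ / 145) • (x - k) := by
  have hn : 0 < ‖u‖ := norm_pos_iff.2 hu
  have h1 := h (k + (145 / ‖u‖) • u) (mem_rd.2 ⟨k, hk, by
    rw [add_sub_cancel_left, norm_smul, Real.norm_of_nonneg (by positivity)]
    field_simp; rfl⟩)
  have e : k + (145 / ‖u‖) • u - x = (145 / ‖u‖) • u - (x - k) := by abel
  rw [e, inner_sub_right, inner_smul_right, real_inner_self_eq_norm_sq] at h1
  have h2 : 145 / ‖u‖ * ‖u‖ ^ 2 = 145 * ‖u‖ := by field_simp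
  rw [h2] at h1
  have h3 : ‖u - (‖u‖ / 145) • (x - k)‖ ^ 2 ≤ 0 := by
    rw [norm_sub_sq_real, inner_smul_right, norm_smul, Real.norm_of_nonneg (by positivity)]
    have h4 : ‖x - k‖ ^ 2 ≤ 21025 := by nlinarith [norm_nonneg (x - k)]
    have h5 : (‖u‖ / 145 * ‖x - k‖) ^ 2 ≤ ‖u‖ ^ 2 := by
      have : (‖u‖ / 145 * ‖x - k‖) ^ 2 = ‖u‖ ^ 2 * (‖x - k‖ ^ 2 / 21025) := by ring
      rw [this]
      have h6 : ‖x - k‖ ^ 2 / 21025 ≤ 1 := by linarith
      nlinarith [sq_nonneg ‖u‖]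
    nlinarith
  have h4 : ‖u - (‖u‖ / 145) • (x - k)‖ = 0 := by
    nlinarith [norm_nonneg (u - (‖u‖ / 145) • (x - k))]
  exact sub_eq_zero.1 (norm_eq_zero.1 h4)

theorem smooth {K : Set E} (hK : IsCompact K) : ∀ x ∈ frontier (rd K), ∀ u v : E,
    u ≠ 0 → v ≠ 0 → (∀ y ∈ rd K, ⟪u, y - x⟫ ≤ 0) → (∀ y ∈ rd K, ⟪v, y - x⟫ ≤ 0) →
    ∃ c : ℝ, 0 < c ∧ v = c • u := by
  intro x hx u v hu hv h1 h2
  have hx' : x ∈ rd K := (rd_compact hK).isClosed.frontier_subset hx
  obtain ⟨k, hk, hxk⟩ := mem_rd.1 hx'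
  have e1 := supp_dir hk hxk hu h1
  have e2 := supp_dir hk hxk hv h2
  have hn : 0 < ‖u‖ := norm_pos_iff.2 hu
  have hm : 0 < ‖v‖ := norm_pos_iff.2 hv
  refine ⟨‖v‖ / ‖u‖, by positivity, ?_⟩
  have : (‖v‖ / ‖u‖) • u = (‖v‖ / ‖u‖) • ((‖u‖ / 145) • (x - k)) := by rw [← e1]
  rw [this, smul_smul]
  have e3 : ‖v‖ / ‖u‖ * (‖u‖ / 145) = ‖v‖ / 145 := by field_simp
  rw [e3]; exact e2

theorem half {V : Set E} {f : E} {N c : ℝ} (hN : ‖f‖ ≤ N) (h : ∀ p ∈ V, ⟪f, p⟫ + 145 * N ≤ c) :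
    ∀ x ∈ rd (convexHull ℝ V), ⟪f, x⟫ ≤ c := by
  intro x hx
  obtain ⟨k, hk, hxk⟩ := mem_rd.1 hx
  have hc : Convex ℝ {p : E | ⟪f, p⟫ ≤ c - 145 * N} :=
    convex_halfSpace_le (innerₛₗ ℝ f).isLinear _
  have hk' : k ∈ {p : E | ⟪f, p⟫ ≤ c - 145 * N} :=
    convexHull_min (fun p hp => by have := h p hp; show ⟪f, p⟫ ≤ _; linarith) hc hk
  have h1 : ⟪f, k⟫ ≤ c - 145 * N := hk'
  have h2 : ⟪f, x - k⟫ ≤ ‖f‖ * ‖x - k‖ := real_inner_le_norm _ _
  have h3 : ‖f‖ * ‖x - k‖ ≤ N * 145 := mul_le_mul hN hxk (norm_nonneg _) ((norm_nonneg _).trans hN)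
  rw [inner_sub_right] at h2
  linarith

theorem sep {V W : Set E} {f : E} {N c : ℝ} (hf : f ≠ 0) (hN : ‖f‖ ≤ N)
    (h1 : ∀ p ∈ V, ⟪f, p⟫ + 145 * N ≤ c) (h2 : ∀ q ∈ W, c + 145 * N ≤ ⟪f, q⟫) :
    Disjoint (interior (rd (convexHull ℝ V))) (interior (rd (convexHull ℝ W))) := by
  rw [Set.disjoint_left]
  intro x hx hy
  have a2 := half (V := W) (f := -f) (N := N) (c := -c) (by simpa using hN)
    (fun q hq => by have := h2 q hq; rw [inner_neg_left]; linarith) x (interior_subset hy)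
  rw [inner_neg_left] at a2
  obtain ⟨r, hr, hb⟩ := Metric.isOpen_iff.1 isOpen_interior x hx
  have hn : 0 < ‖f‖ := norm_pos_iff.2 hf
  have hm : x + (r / 2 / ‖f‖) • f ∈ ball x r := by
    rw [mem_ball, dist_eq_norm, add_sub_cancel_left, norm_smul,
      Real.norm_of_nonneg (by positivity)]
    have : r / 2 / ‖f‖ * ‖f‖ = r / 2 := by field_simp
    rw [this]; linarith
  have a1 := half hN h1 _ (interior_subset (hb hm))
  rw [inner_add_right, inner_smul_right, real_inner_self_eq_norm_sq] at a1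
  have : 0 < r / 2 / ‖f‖ * ‖f‖ ^ 2 := by positivity
  linarith

theorem seg {K : Set E} (hK : Convex ℝ K) {c u : E} (h1 : c + u ∈ K) (h2 : c - u ∈ K) {p : ℝ}
    (hp : |p| ≤ 1) : c + p • u ∈ K := by
  rw [abs_le] at hp
  have := hK h1 h2 (a := (1 + p) / 2) (b := (1 - p) / 2) (by linarith) (by linarith) (by ring)
  have e : ((1 + p) / 2) • (c + u) + ((1 - p) / 2) • (c - u) = c + p • u := by module
  rwa [e] at this

theorem sq {K : Set E} (hK : Convex ℝ K) {c u w : E} (h1 : c + u + w ∈ K) (h2 : c + u - w ∈ K)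
    (h3 : c - u + w ∈ K) (h4 : c - u - w ∈ K) {p q : ℝ} (hp : |p| ≤ 1) (hq : |q| ≤ 1) :
    c + p • u + q • w ∈ K := by
  have a := seg hK h1 h2 hq
  have b := seg hK h3 h4 hq
  have a' : (c + q • w) + u ∈ K := by
    have e : (c + q • w) + u = c + u + q • w := by abel
    rwa [e]
  have b' : (c + q • w) - u ∈ K := by
    have e : (c + q • w) - u = c - u + q • w := by abel
    rwa [e]
  have := seg hK a' b' hp
  have e : c + q • w + p • u = c + p • u + q • w := by abel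
  rwa [e] at this

theorem contact {A B : Set E} (hA : Convex ℝ A) {c n u w : E}
    (fr : ∀ y : E, y = (⟪n, y⟫ / 21025) • n + (⟪u, y⟫ / 21025) • u + (⟪w, y⟫ / 21025) • w)
    (hn : ‖n‖ ≤ 145) (hu : ‖u‖ ≤ 145) (hw : ‖w‖ ≤ 145)
    (pA : ∀ p q : ℝ, |p| ≤ 2 → |q| ≤ 2 → c - n + p • u + q • w ∈ A)
    (pB : ∀ p q : ℝ, |p| ≤ 2 → |q| ≤ 2 → c + n + p • u + q • w ∈ B)
    {g : E → E} (hg : Continuous g) (ho : IsOpenMap g)
    (hd : Disjoint (interior (g '' rd A)) (interior (rd B)))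
    {s t : ℝ} (hs : |s| ≤ 1) (ht : |t| ≤ 1) {x : E} (hx : x = c + s • u + t • w)
    (hc : ‖g x - x‖ < 145) : ⟪n, g x - x⟫ ≤ 0 := by
  by_contra hpos
  push Not at hpos
  set z := g x - x with hz
  have bd : ∀ m : E, ‖m‖ ≤ 145 → |⟪m, z⟫ / 21025| ≤ 1 := by
    intro m hm
    have h1 : |⟪m, z⟫| ≤ ‖m‖ * ‖z‖ := abs_real_inner_le_norm _ _
    have h2 : ‖m‖ * ‖z‖ ≤ 145 * 145 := mul_le_mul hm hc.le (norm_nonneg _) (by norm_num)
    rw [abs_div, abs_of_pos (by norm_num : (0:ℝ) < 21025), div_le_one (by norm_num)]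
    linarith
  have b1 := bd n hn
  have b2 := bd u hu
  have b3 := bd w hw
  have hk := pB (s + ⟪u, z⟫ / 21025) (t + ⟪w, z⟫ / 21025)
    ((abs_add_le _ _).trans (by linarith)) ((abs_add_le _ _).trans (by linarith))
  have hy : g x ∈ interior (rd B) := by
    apply ball_sub hk
    rw [mem_ball, dist_eq_norm]
    have e0 : g x = x + z := by rw [hz]; abel
    have e : g x - (c + n + (s + ⟪u, z⟫ / 21025) • u + (t + ⟪w, z⟫ / 21025) • w)
        = (⟪n, z⟫ / 21025 - 1) • n := by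
      have f := fr z
      generalize ⟪n, z⟫ / 21025 = a1 at f ⊢
      generalize ⟪u, z⟫ / 21025 = a2 at f ⊢
      generalize ⟪w, z⟫ / 21025 = a3 at f ⊢
      rw [e0, f, hx]; module
    rw [e, norm_smul, Real.norm_eq_abs]
    have h1 : |⟪n, z⟫ / 21025 - 1| < 1 := by
      rw [abs_le] at b1
      rw [abs_lt]; constructor <;> linarith [div_pos hpos (by norm_num : (0:ℝ) < 21025)]
    nlinarith [abs_nonneg (⟪n, z⟫ / 21025 - 1), norm_nonneg n]
  have hkA := pA s t (by linarith) (by linarith)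
  have hxA : x ∈ rd A := mem_rd.2 ⟨_, hkA, by
    have e : x - (c - n + s • u + t • w) = n := by rw [hx]; abel
    rw [e]; exact hn⟩
  have hcl : x ∈ closure (interior (rd A)) := by
    rw [(rd_convex hA).closure_interior_eq_closure_of_nonempty_interior
      ⟨_, ball_sub hkA (mem_ball_self (by norm_num))⟩]
    exact subset_closure hxA
  obtain ⟨y, hy1, hy2⟩ := mem_closure_iff.1 hcl (g ⁻¹' interior (rd B))
    (isOpen_interior.preimage hg) hy
  have : g y ∈ interior (g '' rd A) :=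
    interior_maximal (image_mono interior_subset) (ho _ isOpen_interior) ⟨y, hy2, rfl⟩
  exact Set.disjoint_left.1 hd this hy1

/-- unit vectors -/
noncomputable def ev (d : Fin 3) : E := EuclideanSpace.single d 1

/-- matrix of the linear part minus the identity -/
noncomputable def mat (g : E → E) (c d : Fin 3) : ℝ := (g (ev d) - g 0 - ev d) c

theorem iso_struct {g : E → E} (hg : Isometry g) :
    IsOpenMap g ∧ (∀ x : E, ∀ c, (g x - x) c
      = mat g c 0 * x 0 + mat g c 1 * x 1 + mat g c 2 * x 2 + g 0 c) ∧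
    ∀ c d, mat g c d + mat g d c
      + (mat g 0 c * mat g 0 d + mat g 1 c * mat g 1 d + mat g 2 c * mat g 2 d) = 0 := by
  let F := hg.affineIsometryOfStrictConvexSpace
  have hF : ∀ x, F x = g x := fun x => rfl
  let L := F.linearIsometry
  have hL : ∀ x, L x = g x - g 0 := by
    intro x
    have := F.map_vsub x 0
    simpa [hF] using this
  refine ⟨?_, ?_, ?_⟩
  · have := (F.toAffineIsometryEquiv rfl).toHomeomorph.isOpenMap
    exact this
  · intro x c
    have e : x = x 0 • ev 0 + x 1 • ev 1 + x 2 • ev 2 := by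
      ext i; fin_cases i <;> simp [ev]
    have e2 : L x = x 0 • L (ev 0) + x 1 • L (ev 1) + x 2 • L (ev 2) := by
      conv_lhs => rw [e]
      simp only [map_add, map_smul]
    simp only [hL] at e2
    have e3 := congrArg (fun y : E => y c) e2
    have e4 := congrArg (fun y : E => y c) e
    simp only [mat, PiLp.add_apply, PiLp.sub_apply, PiLp.smul_apply, smul_eq_mul] at e3 e4 ⊢
    linear_combination e3 - e4
  · intro c d
    have h := L.inner_map_map (ev c) (ev d)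
    simp only [hL] at h
    simp only [PiLp.inner_apply, Fin.sum_univ_three, mat, PiLp.sub_apply] at h ⊢
    fin_cases c <;> fin_cases d <;> simp [ev] at h ⊢ <;> linear_combination h

theorem small {a : Fin 3 → Fin 3 → ℝ} (h1 : ∀ c d, |a c d| < 1 / 4000)
    (h2 : ∀ c d, |a c d| ≤ 401 * ∑ c, ∑ d, a c d ^ 2) : ∑ c, ∑ d, a c d ^ 2 = 0 := by
  set S := ∑ c, ∑ d, a c d ^ 2 with hS
  have h0 : 0 ≤ S := by rw [hS]; positivity
  have h3 : ∀ c d, a c d ^ 2 ≤ 401 * S / 4000 := by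
    intro c d
    rw [← sq_abs]
    nlinarith [h1 c d, h2 c d, abs_nonneg (a c d)]
  have h4 : S ≤ ∑ c : Fin 3, ∑ d : Fin 3, 401 * S / 4000 :=
    Finset.sum_le_sum fun c _ => Finset.sum_le_sum fun d _ => h3 c d
  simp at h4
  linarith

theorem symb {a : Fin 3 → Fin 3 → ℝ}
    (h : ∀ c d, a c d + a d c + (a 0 c * a 0 d + a 1 c * a 1 d + a 2 c * a 2 d) = 0) (c d : Fin 3) :
    a c d + a d c ≤ ∑ c, ∑ d, a c d ^ 2 ∧ -(∑ c, ∑ d, a c d ^ 2) ≤ a c d + a d c := by
  have hb : ∀ i e, a i e ^ 2 ≤ a i 0 ^ 2 + a i 1 ^ 2 + a i 2 ^ 2 := by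
    intro i e
    fin_cases e <;> simp <;> nlinarith [sq_nonneg (a i 0), sq_nonneg (a i 1), sq_nonneg (a i 2)]
  have := h c d
  simp only [Fin.sum_univ_three]
  constructor <;> nlinarith [hb 0 c, hb 0 d, hb 1 c, hb 1 d, hb 2 c, hb 2 d,
    sq_nonneg (a 0 c + a 0 d), sq_nonneg (a 1 c + a 1 d), sq_nonneg (a 2 c + a 2 d),
    sq_nonneg (a 0 c - a 0 d), sq_nonneg (a 1 c - a 1 d), sq_nonneg (a 2 c - a 2 d)]

theorem path {ι : Type} [Finite ι] (X : ι → E) (γ : ℝ → E → E)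
    (hc : Continuous (fun p : ℝ × E => γ p.1 p.2)) (h0 : ∀ x, γ 0 x = x)
    (rig : ∀ t ∈ Icc (0:ℝ) 1, (∀ k, ‖γ t (X k) - X k‖ < 145) → (∀ c d, |mat (γ t) c d| < 1 / 4000) →
      ∀ x, γ t x = x) : ∀ t ∈ Icc (0:ℝ) 1, ∀ x, γ t x = x := by
  have hx : ∀ x, Continuous fun t => γ t x := fun x =>
    hc.comp (continuous_id.prodMk continuous_const)
  have hcl : IsClosed {t : ℝ | ∀ x, γ t x = x} := by
    have : {t : ℝ | ∀ x, γ t x = x} = ⋂ x, {t | γ t x = x} := by ext; simp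
    rw [this]
    exact isClosed_iInter fun x => isClosed_eq (hx x) continuous_const
  have := IsClosed.Icc_subset_of_forall_mem_nhdsWithin (a := (0:ℝ)) (b := 1)
    (s := {t : ℝ | ∀ x, γ t x = x}) (hcl.inter isClosed_Icc) h0 (by
      rintro t ⟨ht, ht0, ht1⟩
      have e1 : ∀ᶠ s in nhds t, ∀ k, ‖γ s (X k) - X k‖ < 145 := by
        rw [Filter.eventually_all]
        intro k
        have hcont : Continuous fun s => ‖γ s (X k) - X k‖ := ((hx _).sub continuous_const).norm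
        apply hcont.continuousAt.eventually_lt continuousAt_const
        rw [ht]; simp
      have e2 : ∀ᶠ s in nhds t, ∀ c d, |mat (γ s) c d| < 1 / 4000 := by
        rw [Filter.eventually_all]
        intro c
        rw [Filter.eventually_all]
        intro d
        have hcont : Continuous fun s => |mat (γ s) c d| := by
          have h1 := hx (ev d)
          have h2 := hx 0
          unfold mat
          fun_prop
        apply hcont.continuousAt.eventually_lt continuousAt_const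
        simp only [mat]
        rw [ht, ht]; simp
      have e3 : ∀ᶠ s in nhdsWithin t (Ioi t), s ∈ Ioo t 1 := Ioo_mem_nhdsGT ht1
      filter_upwards [e3, nhdsWithin_le_nhds e1, nhdsWithin_le_nhds e2] with s hs a b
      exact rig s ⟨ht0.trans hs.1.le, hs.2.le⟩ a b)
  exact fun t ht => this ht

end Pool.Agent.H.MP_1a0ba0_co
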