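import Pool.Agent.H.MP_1a0ba0_co.Tab

set_option autoImplicit false

namespace Pool.Agent.H.MP_1a0ba0_co

theorem lp0 (a : Fin 3 → Fin 3 → ℝ) (v : Fin 3 → ℝ) (S : ℝ)
    (h : ∀ k s t, ineq (nT 0 k) (xt 0 k s t) a v)
    (hs : ∀ c d, a c d + a d c ≤ S ∧ -S ≤ a c d + a d c) : concl a v S := by
  have h0 := ineq_of (h 0 true true) (-55) 120 60 16231 18485 9306 (by decide +kernel)
  have h1 := ineq_of (h 0 true false) (-55) 120 60 15967 18365 9304 (by decide +kernel)
  have h2 := ineq_of (h 0 false true) (-55) 120 60 16183 18595 9042 (by decide +kernel)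
  have h3 := ineq_of (h 0 false false) (-55) 120 60 15919 18475 9040 (by decide +kernel)
  have h4 := ineq_of (h 1 true true) (-120) (-60) 55 18485 9306 16231 (by decide +kernel)
  have h5 := ineq_of (h 1 true false) (-120) (-60) 55 18365 9304 15967 (by decide +kernel)
  have h6 := ineq_of (h 1 false true) (-120) (-60) 55 18595 9042 16183 (by decide +kernel)
  have h7 := ineq_of (h 1 false false) (-120) (-60) 55 18475 9040 15919 (by decide +kernel)
  have h8 := ineq_of (h 2 true true) 105 (-80) (-60) 18944 12791 7215 (by decide +kernel)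
  have h9 := ineq_of (h 2 true false) 105 (-80) (-60) 19000 12671 7473 (by decide +kernel)
  have h10 := ineq_of (h 2 false true) 105 (-80) (-60) 19136 13001 7271 (by decide +kernel)
  have h11 := ineq_of (h 2 false false) 105 (-80) (-60) 19192 12881 7529 (by decide +kernel)
  have h12 := ineq_of (h 3 true true) (-111) (-80) (-48) 16702 17754 (-1391) (by decide +kernel)
  have h13 := ineq_of (h 3 true false) (-111) (-80) (-48) 16862 17514 (-1361) (by decide +kernel)
  have h14 := ineq_of (h 3 false true) (-111) (-80) (-48) 16798 17784 (-1663) (by decide +kernel)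
  have h15 := ineq_of (h 3 false false) (-111) (-80) (-48) 16958 17544 (-1633) (by decide +kernel)
  push_cast at h0 h1 h2 h3 h4 h5 h6 h7 h8 h9 h10 h11 h12 h13 h14 h15
  obtain ⟨p00, q00⟩ := hs 0 0
  obtain ⟨p01, q01⟩ := hs 0 1
  obtain ⟨p02, q02⟩ := hs 0 2
  obtain ⟨p11, q11⟩ := hs 1 1
  obtain ⟨p12, q12⟩ := hs 1 2
  obtain ⟨p22, q22⟩ := hs 2 2
  refine ⟨?_, ?_, ?_, ?_, ?_, ?_, ?_, ?_, ?_, ?_, ?_, ?_⟩ <;> linarith

theorem lp1 (a : Fin 3 → Fin 3 → ℝ) (v : Fin 3 → ℝ) (S : ℝ)
    (h : ∀ k s t, ineq (nT 1 k) (xt 1 k s t) a v)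
    (hs : ∀ c d, a c d + a d c ≤ S ∧ -S ≤ a c d + a d c) : concl a v S := by
  have h0 := ineq_of (h 0 true true) 55 (-120) (-60) 16231 18485 9306 (by decide +kernel)
  have h1 := ineq_of (h 0 true false) 55 (-120) (-60) 15967 18365 9304 (by decide +kernel)
  have h2 := ineq_of (h 0 false true) 55 (-120) (-60) 16183 18595 9042 (by decide +kernel)
  have h3 := ineq_of (h 0 false false) 55 (-120) (-60) 15919 18475 9040 (by decide +kernel)
  have h4 := ineq_of (h 1 true true) 60 (-55) 120 9306 16231 18485 (by decide +kernel)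
  have h5 := ineq_of (h 1 true false) 60 (-55) 120 9304 15967 18365 (by decide +kernel)
  have h6 := ineq_of (h 1 false true) 60 (-55) 120 9042 16183 18595 (by decide +kernel)
  have h7 := ineq_of (h 1 false false) 60 (-55) 120 9040 15919 18475 (by decide +kernel)
  have h8 := ineq_of (h 2 true true) (-60) 105 (-80) 7215 18944 12791 (by decide +kernel)
  have h9 := ineq_of (h 2 true false) (-60) 105 (-80) 7473 19000 12671 (by decide +kernel)
  have h10 := ineq_of (h 2 false true) (-60) 105 (-80) 7271 19136 13001 (by decide +kernel)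
  have h11 := ineq_of (h 2 false false) (-60) 105 (-80) 7529 19192 12881 (by decide +kernel)
  have h12 := ineq_of (h 3 true true) (-48) (-111) (-80) (-1391) 16702 17754 (by decide +kernel)
  have h13 := ineq_of (h 3 true false) (-48) (-111) (-80) (-1361) 16862 17514 (by decide +kernel)
  have h14 := ineq_of (h 3 false true) (-48) (-111) (-80) (-1663) 16798 17784 (by decide +kernel)
  have h15 := ineq_of (h 3 false false) (-48) (-111) (-80) (-1633) 16958 17544 (by decide +kernel)
  push_cast at h0 h1 h2 h3 h4 h5 h6 h7 h8 h9 h10 h11 h12 h13 h14 h15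
  obtain ⟨p00, q00⟩ := hs 0 0
  obtain ⟨p01, q01⟩ := hs 0 1
  obtain ⟨p02, q02⟩ := hs 0 2
  obtain ⟨p11, q11⟩ := hs 1 1
  obtain ⟨p12, q12⟩ := hs 1 2
  obtain ⟨p22, q22⟩ := hs 2 2
  refine ⟨?_, ?_, ?_, ?_, ?_, ?_, ?_, ?_, ?_, ?_, ?_, ?_⟩ <;> linarith

theorem lp2 (a : Fin 3 → Fin 3 → ℝ) (v : Fin 3 → ℝ) (S : ℝ)
    (h : ∀ k s t, ineq (nT 2 k) (xt 2 k s t) a v)
    (hs : ∀ c d, a c d + a d c ≤ S ∧ -S ≤ a c d + a d c) : concl a v S := by
  have h0 := ineq_of (h 0 true true) (-120) 55 (-60) (-18485) (-16231) (-9306) (by decide +kernel)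
  have h1 := ineq_of (h 0 true false) (-120) 55 (-60) (-18365) (-15967) (-9304) (by decide +kernel)
  have h2 := ineq_of (h 0 false true) (-120) 55 (-60) (-18595) (-16183) (-9042) (by decide +kernel)
  have h3 := ineq_of (h 0 false false) (-120) 55 (-60) (-18475) (-15919) (-9040) (by decide +kernel)
  have h4 := ineq_of (h 1 true true) 60 120 (-55) (-9306) (-18485) (-16231) (by decide +kernel)
  have h5 := ineq_of (h 1 true false) 60 120 (-55) (-9304) (-18365) (-15967) (by decide +kernel)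
  have h6 := ineq_of (h 1 false true) 60 120 (-55) (-9042) (-18595) (-16183) (by decide +kernel)
  have h7 := ineq_of (h 1 false false) 60 120 (-55) (-9040) (-18475) (-15919) (by decide +kernel)
  have h8 := ineq_of (h 2 true true) 80 (-105) 60 (-12791) (-18944) (-7215) (by decide +kernel)
  have h9 := ineq_of (h 2 true false) 80 (-105) 60 (-12671) (-19000) (-7473) (by decide +kernel)
  have h10 := ineq_of (h 2 false true) 80 (-105) 60 (-13001) (-19136) (-7271) (by decide +kernel)
  have h11 := ineq_of (h 2 false false) 80 (-105) 60 (-12881) (-19192) (-7529) (by decide +kernel)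
  have h12 := ineq_of (h 3 true true) 80 111 48 (-17754) (-16702) 1391 (by decide +kernel)
  have h13 := ineq_of (h 3 true false) 80 111 48 (-17514) (-16862) 1361 (by decide +kernel)
  have h14 := ineq_of (h 3 false true) 80 111 48 (-17784) (-16798) 1663 (by decide +kernel)
  have h15 := ineq_of (h 3 false false) 80 111 48 (-17544) (-16958) 1633 (by decide +kernel)
  push_cast at h0 h1 h2 h3 h4 h5 h6 h7 h8 h9 h10 h11 h12 h13 h14 h15
  obtain ⟨p00, q00⟩ := hs 0 0
  obtain ⟨p01, q01⟩ := hs 0 1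
  obtain ⟨p02, q02⟩ := hs 0 2
  obtain ⟨p11, q11⟩ := hs 1 1
  obtain ⟨p12, q12⟩ := hs 1 2
  obtain ⟨p22, q22⟩ := hs 2 2
  refine ⟨?_, ?_, ?_, ?_, ?_, ?_, ?_, ?_, ?_, ?_, ?_, ?_⟩ <;> linarith

end Pool.Agent.H.MP_1a0ba0_co
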