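import Mathlib

set_option autoImplicit false

namespace Pool.Agent.H.MP_1a0ba0_co

def cL : List (List ℤ) :=
  [[16075, 18480, 9173], [18480, 9173, 16075], [19068, 12836, 7372], [16830, 17649, -1512],
   [16075, 18480, 9173], [9173, 16075, 18480], [7372, 19068, 12836], [-1512, 16830, 17649],
   [-18480, -16075, -9173], [-9173, -18480, -16075], [-12836, -19068, -7372], [-17649, -16830, 1512],
   [9173, 16075, 18480], [18480, 9173, 16075], [12836, 7372, 19068], [17649, -1512, 16830],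
   [-18480, -16075, -9173], [-16075, -9173, -18480], [-19068, -7372, -12836], [-16830, 1512, -17649],
   [-16075, -9173, -18480], [-9173, -18480, -16075], [-7372, -12836, -19068], [1512, -17649, -16830],
   [19068, 12836, 7372], [-12836, -19068, -7372], [17649, -1512, 16830], [1512, -17649, -16830],
   [7372, 19068, 12836], [-7372, -12836, -19068], [16830, 17649, -1512], [-16830, 1512, -17649],
   [12836, 7372, 19068], [-19068, -7372, -12836], [-1512, 16830, 17649], [-17649, -16830, 1512]]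

def nL : List (List ℤ) :=
  [[-55, 120, 60], [-120, -60, 55], [105, -80, -60], [-111, -80, -48],
   [55, -120, -60], [60, -55, 120], [-60, 105, -80], [-48, -111, -80],
   [-120, 55, -60], [60, 120, -55], [80, -105, 60], [80, 111, 48],
   [-60, 55, -120], [120, 60, -55], [-80, -60, 105], [-80, -48, -111],
   [120, -55, 60], [55, -60, -120], [-105, 60, 80], [111, 48, 80],
   [-55, 60, 120], [-60, -120, 55], [60, 80, -105], [48, 80, 111],
   [-105, 80, 60], [-80, 105, -60], [80, 48, 111], [-48, -80, -111],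
   [60, -105, 80], [-60, -80, 105], [111, 80, 48], [-111, -48, -80],
   [80, 60, -105], [105, -60, -80], [48, 111, 80], [-80, -111, -48]]

def uL : List (List ℤ) :=
  [[24, -55, 132], [-55, 132, 24], [-96, -105, -28], [-48, -15, 136],
   [24, -55, 132], [132, 24, -55], [-28, -96, -105], [136, -48, -15],
   [55, -24, -132], [-132, 55, -24], [105, 96, 28], [15, 48, -136],
   [132, 24, -55], [-55, 132, 24], [-105, -28, -96], [-15, 136, -48],
   [55, -24, -132], [-24, -132, 55], [96, 28, 105], [48, -136, 15],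
   [-24, -132, 55], [-132, 55, -24], [28, 105, 96], [-136, 15, 48],
   [-96, -105, -28], [105, 96, 28], [-15, 136, -48], [-136, 15, 48],
   [-28, -96, -105], [28, 105, 96], [-48, -15, 136], [48, -136, 15],
   [-105, -28, -96], [96, 28, 105], [136, -48, -15], [15, 48, -136]]

def wL : List (List ℤ) :=
  [[132, 60, 1], [60, 1, 132], [-28, 60, -129], [-80, 120, -15],
   [132, 60, 1], [1, 132, 60], [-129, -28, 60], [-15, -80, 120],
   [-60, -132, -1], [-1, -60, -132], [-60, 28, 129], [-120, 80, 15],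
   [1, 132, 60], [60, 1, 132], [60, -129, -28], [120, -15, -80],
   [-60, -132, -1], [-132, -1, -60], [28, 129, -60], [80, 15, -120],
   [-132, -1, -60], [-1, -60, -132], [129, -60, 28], [15, -120, 80],
   [-28, 60, -129], [-60, 28, 129], [120, -15, -80], [15, -120, 80],
   [-129, -28, 60], [129, -60, 28], [-80, 120, -15], [80, 15, -120],
   [60, -129, -28], [28, 129, -60], [-15, -80, 120], [-120, 80, 15]]

def sL : List (List ℤ) :=
  [[0, 0, 0, 0, 0], [-55, 120, 60, 145, 1883855], [-2, -2, 1, 3, -38931], [-120, -60, 55, 145, -1883855],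
   [-1, -2, -2, 3, -48388], [0, -3, 0, 3, -26466], [105, -80, -60, 145, 532940], [-111, -80, -48, 145, -3207474],
   [-2, -2, 1, 3, -38931], [55, -120, -60, 145, -1883855], [0, 0, 0, 0, 0], [-2, -1, -2, 3, -48388],
   [60, -55, 120, 145, 1883855], [0, 0, -3, 3, -26466], [1, -2, -2, 3, -38931], [1, -2, -2, 3, -38931],
   [-60, 105, -80, 145, 532940], [-48, -111, -80, 145, -3207474], [2, 2, -1, 3, 38931], [2, 1, 2, 3, 48388],
   [0, 0, 0, 0, 0], [3, 0, 0, 3, -26466], [-120, 55, -60, 145, 1883855], [60, 120, -55, 145, -1883855],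
   [80, -105, 60, 145, 532940], [2, 2, -1, 3, -38931], [80, 111, 48, 145, -3207474], [120, 60, -55, 145, 1883855],
   [-60, 55, -120, 145, -1883855], [-3, 0, 0, 3, 26466], [0, 0, 0, 0, 0], [-2, 1, -2, 3, -38931],
   [-2, -2, -1, 3, -48388], [-80, -48, -111, 145, -3207474], [-2, 1, -2, 3, -38931], [-80, -60, 105, 145, 532940],
   [1, 2, 2, 3, 48388], [0, 0, 3, 3, 26466], [120, -55, 60, 145, -1883855], [2, -1, 2, 3, 38931],
   [0, 0, 0, 0, 0], [55, -60, -120, 145, 1883855], [2, -1, 2, 3, -38931], [111, 48, 80, 145, -3207474],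
   [-105, 60, 80, 145, 532940], [0, 3, 0, 3, 26466], [-1, 2, 2, 3, 38931], [-60, -120, 55, 145, 1883855],
   [2, 2, 1, 3, 48388], [-55, 60, 120, 145, -1883855], [0, 0, 0, 0, 0], [48, 80, 111, 145, -3207474],
   [60, 80, -105, 145, 532940], [-1, 2, 2, 3, -38931], [-105, 80, 60, 145, -532940], [-1, 2, 2, 3, 38931],
   [-80, 105, -60, 145, -532940], [80, 48, 111, 145, 3207474], [-2, 1, -2, 3, 38931], [-48, -80, -111, 145, 3207474],
   [0, 0, 0, 0, 0], [-5, 7, -5, 10, -32109], [-7, 5, 5, 10, -32109], [111, 80, 48, 145, 3207474],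
   [60, -105, 80, 145, -532940], [-2, -2, 1, 3, 38931], [2, -1, 2, 3, 38931], [-111, -48, -80, 145, 3207474],
   [-60, -80, 105, 145, -532940], [5, -7, 5, 10, 32109], [0, 0, 0, 0, 0], [-5, -5, 7, 10, -32109],
   [2, 2, -1, 3, 38931], [48, 111, 80, 145, 3207474], [-80, -111, -48, 145, 3207474], [80, 60, -105, 145, -532940],
   [105, -60, -80, 145, -532940], [1, -2, -2, 3, 38931], [7, -5, -5, 10, 32109], [5, 5, -7, 10, 32109],
   [0, 0, 0, 0, 0]]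

def cT (i : Fin 9) (k : Fin 4) (d : Fin 3) : ℤ := (cL.getD (4 * i.val + k.val) []).getD d.val 0

def nT (i : Fin 9) (k : Fin 4) (d : Fin 3) : ℤ := (nL.getD (4 * i.val + k.val) []).getD d.val 0

def uT (i : Fin 9) (k : Fin 4) (d : Fin 3) : ℤ := (uL.getD (4 * i.val + k.val) []).getD d.val 0

def wT (i : Fin 9) (k : Fin 4) (d : Fin 3) : ℤ := (wL.getD (4 * i.val + k.val) []).getD d.val 0

def sT (i j : Fin 9) (d : ℕ) : ℤ := (sL.getD (9 * i.val + j.val) []).getD d 0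

def nb (i : Fin 9) (k : Fin 4) : Fin 9 :=
  Fin.ofNat 9 (([1, 3, 6, 7, 0, 3, 7, 8, 4, 5, 6, 8, 1, 0, 8, 6, 2, 5, 8, 7, 4, 2, 7, 6, 0, 2, 3, 5, 1, 5, 0, 4, 3, 4, 1, 2] : List ℕ).getD (4 * i.val + k.val) 0)

def kk (i : Fin 9) (k : Fin 4) : Fin 4 :=
  Fin.ofNat 4 (([0, 1, 0, 2, 0, 0, 0, 2, 0, 1, 1, 3, 1, 1, 0, 2, 0, 0, 1, 3, 1, 1, 1, 3, 2, 2, 3, 3, 2, 2, 3, 3, 2, 2, 3, 3] : List ℕ).getD (4 * i.val + k.val) 0)

def sg (b : Bool) : ℤ := if b then 1 else -1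

def vt (i : Fin 9) (k : Fin 4) (s t : Bool) (d : Fin 3) : ℤ :=
  cT i k d - nT i k d + 2 * sg s * uT i k d + 2 * sg t * wT i k d

def xt (i : Fin 9) (k : Fin 4) (s t : Bool) (d : Fin 3) : ℤ :=
  cT i k d + sg s * uT i k d + sg t * wT i k d

theorem nb_ne : ∀ i k, nb i k ≠ i := by decide +kernel

theorem nb_spec : ∀ i k d, cT (nb i k) (kk i k) d = cT i k d ∧ nT (nb i k) (kk i k) d = - nT i k d ∧
    uT (nb i k) (kk i k) d = uT i k d ∧ wT (nb i k) (kk i k) d = wT i k d := by decide +kernel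

theorem frame : ∀ i k d e, nT i k d * nT i k e + uT i k d * uT i k e + wT i k d * wT i k e
    = if d = e then 21025 else 0 := by decide +kernel

theorem norms : ∀ i k, nT i k 0 ^ 2 + nT i k 1 ^ 2 + nT i k 2 ^ 2 ≤ 145 ^ 2 ∧
    uT i k 0 ^ 2 + uT i k 1 ^ 2 + uT i k 2 ^ 2 ≤ 145 ^ 2 ∧
    wT i k 0 ^ 2 + wT i k 1 ^ 2 + wT i k 2 ^ 2 ≤ 145 ^ 2 := by decide +kernel

theorem sep0 : ∀ i j, i ≠ j → 0 ≤ sT i j 3 ∧ sT i j 0 ^ 2 + sT i j 1 ^ 2 + sT i j 2 ^ 2 ≤ sT i j 3 ^ 2 ∧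
    0 < sT i j 0 ^ 2 + sT i j 1 ^ 2 + sT i j 2 ^ 2 := by decide +kernel

theorem sep1 : ∀ i j, i ≠ j → ∀ k s t,
    sT i j 0 * vt i k s t 0 + sT i j 1 * vt i k s t 1 + sT i j 2 * vt i k s t 2 + 145 * sT i j 3
      ≤ sT i j 4 ∧
    sT i j 4 + 145 * sT i j 3
      ≤ sT i j 0 * vt j k s t 0 + sT i j 1 * vt j k s t 1 + sT i j 2 * vt j k s t 2 := by
  decide +kernel

def ineq (n x : Fin 3 → ℤ) (a : Fin 3 → Fin 3 → ℝ) (v : Fin 3 → ℝ) : Prop :=
  (n 0 : ℝ) * (a 0 0 * (x 0 : ℝ) + a 0 1 * (x 1 : ℝ) + a 0 2 * (x 2 : ℝ) + v 0)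
  + (n 1 : ℝ) * (a 1 0 * (x 0 : ℝ) + a 1 1 * (x 1 : ℝ) + a 1 2 * (x 2 : ℝ) + v 1)
  + (n 2 : ℝ) * (a 2 0 * (x 0 : ℝ) + a 2 1 * (x 1 : ℝ) + a 2 2 * (x 2 : ℝ) + v 2) ≤ 0

theorem ineq_of {n x : Fin 3 → ℤ} {a : Fin 3 → Fin 3 → ℝ} {v : Fin 3 → ℝ} (h : ineq n x a v)
    (n0 n1 n2 x0 x1 x2 : ℤ)
    (e : n 0 = n0 ∧ n 1 = n1 ∧ n 2 = n2 ∧ x 0 = x0 ∧ x 1 = x1 ∧ x 2 = x2) :
    (n0 : ℝ) * (a 0 0 * (x0 : ℝ) + a 0 1 * (x1 : ℝ) + a 0 2 * (x2 : ℝ) + v 0)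
  + (n1 : ℝ) * (a 1 0 * (x0 : ℝ) + a 1 1 * (x1 : ℝ) + a 1 2 * (x2 : ℝ) + v 1)
  + (n2 : ℝ) * (a 2 0 * (x0 : ℝ) + a 2 1 * (x1 : ℝ) + a 2 2 * (x2 : ℝ) + v 2) ≤ 0 := by
  obtain ⟨rfl, rfl, rfl, rfl, rfl, rfl⟩ := e
  exact h

def concl (a : Fin 3 → Fin 3 → ℝ) (v : Fin 3 → ℝ) (S : ℝ) : Prop :=
  a 0 1 ≤ 400 * S ∧ a 0 2 ≤ 400 * S ∧ a 1 0 ≤ 400 * S ∧ a 1 2 ≤ 400 * S ∧ a 2 0 ≤ 400 * S ∧
  a 2 1 ≤ 400 * S ∧ v 0 ≤ 11000000 * S ∧ v 1 ≤ 11000000 * S ∧ v 2 ≤ 11000000 * S ∧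
  -v 0 ≤ 11000000 * S ∧ -v 1 ≤ 11000000 * S ∧ -v 2 ≤ 11000000 * S

end Pool.Agent.H.MP_1a0ba0_co
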